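import Mathlib
import Pool.Agent.Results.MP_f91ac8_co.NotRegular
import Pool.Agent.Y350.PP.Aut

/-!
# Binary automatic words whose prefix palindromic length is not regular over any ring

For every base `d ≥ 2` there is a binary `d`-automatic word whose prefix palindromic length is not
`d`-regular; it is not `d`-regular over any nontrivial Noetherian commutative ring, and its
reduction modulo `m` is not `d`-automatic (infinite `d`-kernel), for every `m ≥ 2`.
-/

set_option autoImplicit false

namespace Pool.Agent.Results.MP_f91ac8_co.BinaryAllModuli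

open Pool.Agent.Results.MP_f91ac8_co.NotRegular Pool.Agent.Y350.PP

/-- the `d`-kernel of a sequence -/
def kernel (d : ℕ) {K : Type} (f : ℕ → K) : Set (ℕ → K) :=
  {g : ℕ → K | ∃ e r : ℕ, r < d ^ e ∧ g = fun n => f (d ^ e * n + r)}

/-- the sequence `f` with values in the commutative ring `K` is `d`-regular over `K`: the
`K`-module spanned by its `d`-kernel is finitely generated -/
def IsRegularOver (K : Type) [CommRing K] (d : ℕ) (f : ℕ → K) : Prop :=
  (Submodule.span K (kernel d f)).FG

/-- second difference at `d`-power scale -/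
def ph (K : Type) [CommRing K] (d a : ℕ) : (ℕ → K) →ₗ[K] K :=
  LinearMap.proj (2 * d ^ a) - (2 : K) • LinearMap.proj (2 * d ^ (a + 1)) +
    LinearMap.proj (2 * d ^ (a + 2))

theorem ppl_value {d : ℕ} (hd : 2 ≤ d) {u : ℕ → Bool} (U : IsB d u) {s t : ℕ} (hst : s + 2 ≤ t) :
    PPL u (2 * d ^ t + 2 * d ^ s) =
      t - 1 + (if t = 2 * d ^ s + 2 * d + 1 then 0 else 1) := by
  have hne : ¬ 2 * d ^ t + 2 * d ^ s + 1 = p d 1 := by
    rw [p_one hd]
    have h1 : d ^ 2 ≤ d ^ t := Nat.pow_le_pow_right (by omega) (by omega)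
    have h2 : (d + 1) * d = d ^ 2 + d := by ring
    have h3 : d ≤ d ^ 2 := by nlinarith
    omega
  rw [PPL_formula' hd U, vb, v_value hd hst, if_neg hne, Nat.add_zero]

theorem not_regular_over {d : ℕ} (hd : 2 ≤ d) {u : ℕ → Bool} (U : IsB d u) (K : Type)
    [CommRing K] [Nontrivial K] [IsNoetherianRing K] :
    ¬ IsRegularOver K d (fun n => (PPL u n : K)) := by
  intro hreg
  unfold IsRegularOver kernel at hreg
  obtain ⟨g, hg⟩ : ∃ g : ℕ → (ℕ → K), g = fun s m => (PPL u (d ^ (s + 2) * m + 2 * d ^ s) : K) :=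
    ⟨_, rfl⟩
  have hval : ∀ s l, g s (2 * d ^ l) = (s : K) + l + 1 +
      (if s + 2 + l = 2 * d ^ s + 2 * d + 1 then 0 else 1) := by
    intro s l
    rw [hg]
    dsimp only
    rw [show d ^ (s + 2) * (2 * d ^ l) + 2 * d ^ s = 2 * d ^ (s + 2 + l) + 2 * d ^ s by ring,
      ppl_value hd U (by omega)]
    rw [show s + 2 + l - 1 = s + l + 1 by omega]
    split_ifs <;> push_cast <;> ring
  have hle : Submodule.span K (Set.range g) ≤
      Submodule.span K {g : ℕ → K | ∃ e r : ℕ, r < d ^ e ∧
        g = fun n => ((PPL u (d ^ e * n + r) : ℕ) : K)} := by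
    apply Submodule.span_mono
    rintro _ ⟨s, rfl⟩
    refine ⟨s + 2, 2 * d ^ s, ?_, by rw [hg]⟩
    have h4 : 0 < d ^ s := by positivity
    have h5 : 4 ≤ d ^ 2 := by nlinarith
    rw [pow_add]
    nlinarith
  have hnoeth := isNoetherian_of_fg_of_noetherian _ hreg
  have hfg := isNoetherian_submodule.mp hnoeth _ hle
  rw [Submodule.fg_span_iff_fg_span_finset_subset] at hfg
  obtain ⟨S, hS1, hS2⟩ := hfg
  have hS3 : ∀ x ∈ S, ∃ t, g t = x := fun x hx => hS1 hx
  choose! idx hidx using hS3
  obtain ⟨s, hs⟩ : ∃ s, s = S.sup idx + 1 := ⟨_, rfl⟩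
  have hidx2 : ∀ x ∈ S, idx x < s := by
    intro x hx
    have : idx x ≤ S.sup idx := Finset.le_sup hx
    omega
  have hls := lt_dpow hd s
  obtain ⟨a, ha⟩ : ∃ a, a = 2 * d ^ s + 2 * d + 1 - (s + 2) := ⟨_, rfl⟩
  have ha2 : s + 2 + a = 2 * d ^ s + 2 * d + 1 := by omega
  have hker : ∀ x ∈ S, ph K d a x = 0 := by
    intro x hx
    have h1 := hidx2 x hx
    rw [← hidx x hx]
    obtain ⟨t, ht⟩ : ∃ t, t = idx x := ⟨_, rfl⟩
    rw [← ht] at h1 ⊢
    have h2 := pow_gap hd h1
    unfold ph
    simp only [LinearMap.add_apply, LinearMap.sub_apply, LinearMap.smul_apply,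
      LinearMap.proj_apply, hval, smul_eq_mul]
    rw [if_neg (by omega), if_neg (by omega), if_neg (by omega)]
    push_cast
    ring
  have hspan : Submodule.span K (S : Set (ℕ → K)) ≤ LinearMap.ker (ph K d a) := by
    rw [Submodule.span_le]
    intro x hx
    exact LinearMap.mem_ker.mpr (hker x hx)
  have hmem : g s ∈ Submodule.span K (Set.range g) := Submodule.subset_span ⟨s, rfl⟩
  rw [hS2] at hmem
  have h0 := LinearMap.mem_ker.mp (hspan hmem)
  unfold ph at h0
  simp only [LinearMap.add_apply, LinearMap.sub_apply, LinearMap.smul_apply,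
    LinearMap.proj_apply, hval, smul_eq_mul] at h0
  rw [if_pos ha2, if_neg (by omega), if_neg (by omega)] at h0
  push_cast at h0
  have h1 : (1 : K) = 0 := by linear_combination (-1 : K) * h0
  exact one_ne_zero h1

/-- For every base `d ≥ 2` there is a binary `d`-automatic word `u` such that its prefix
palindromic length is not `d`-regular, is not `d`-regular over any nontrivial Noetherian
commutative ring, and is not `d`-automatic modulo `m` for any `m ≥ 2`. -/
theorem result : ∀ d : ℕ, 2 ≤ d →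
    ∃ u : ℕ → Bool, IsAutomatic d u ∧
      ¬ IsRegular d (fun n => (PPL u n : ℤ)) ∧
      (∀ (K : Type) [CommRing K] [Nontrivial K] [IsNoetherianRing K],
        ¬ IsRegularOver K d (fun n => (PPL u n : K))) ∧
      ∀ m : ℕ, 2 ≤ m → (kernel d (fun n => (PPL u n : ZMod m))).Infinite := by
  intro d hd
  refine ⟨wb d, wb_automatic d, not_regular_over hd (wb_isB hd) ℤ, ?_, ?_⟩
  · intro K _ _ _
    exact not_regular_over hd (wb_isB hd) K
  · intro m hm hfin
    have : Fact (1 < m) := ⟨by omega⟩
    have : NeZero m := ⟨by omega⟩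
    exact not_regular_over hd (wb_isB hd) (ZMod m) (Submodule.fg_span hfin)

end Pool.Agent.Results.MP_f91ac8_co.BinaryAllModuli
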